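import Pool.Agent.H64.EV.Targets

/-!
# Row ONU: the phantom
-/

set_option autoImplicit false

open Matrix Pool.Agent.H64.CC Pool.Agent.H2.NL Pool.Agent.H64.EV

namespace Pool.Agent.H52.EV

theorem pf_ONU (hOSD : T_OSD) (hTN1 : T_TN1) (hTN2 : T_TN2) (hTN3 : T_TN3) (hOID : T_OID)
    (hSYM : T_SYM) (hOER : T_OER) : T_ONU := by
  intro K _ _ V P _ _ _ _ F A hS hy
  obtain ⟨y₀, hy₀⟩ := hy
  obtain ⟨-, t, -, ht2, hsd⟩ := hOSD K V P F A hS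
  obtain ⟨L, hnil, hbd, hsym⟩ := hSYM K ((V ⊕ P) × Bool) F.tl.o (2 * (t + 1))
  have hC := hS.calculus
  have hER := hOER K V P F A hS
  obtain ⟨hZA, hZt⟩ := hTN1 K (V ⊕ P) F A hC (t + 1) L (Sum.inr y₀) hy₀ hnil hbd
  have hsd' : F.sd = ((t + 1 : ℕ) : K) - 1 := by
    rw [hsd]
    push_cast
    ring
  exact ⟨t + 1, by omega, hOID K (V ⊕ P) F A hC (t + 1) _ hZA hZt
    (hTN3 K (V ⊕ P) F (t + 1) L (Sum.inr y₀) hnil hbd hy₀)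
    (hTN2 K (V ⊕ P) F A hC hER (t + 1) L (by omega) hsd' hnil hbd hsym)⟩

end Pool.Agent.H52.EV
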