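import Pool.Agent.H64.EV.Targets

/-!
# Row SL2: a vector of weight zero and an invariant vector
-/

set_option autoImplicit false

open Matrix Pool.Agent.H64.CC Pool.Agent.H2.NL Pool.Agent.H64.EV

namespace Pool.Agent.H52.EV

section

variable {M : Type} [AddCommGroup M] [Module ℚ M]

/-- `e^m (f (e x)) = f (e^(m+1) x) + m (m+1) e^m x`, if `h x = 0` -/
theorem sl2_pow (e f h : Module.End ℚ M) (h1 : e * f - f * e = h)
    (h2 : h * e - e * h = (2 : ℚ) • e) (x : M) (hx : h x = 0) (m : ℕ) :
    h ((e ^ m) x) = (2 * m : ℚ) • (e ^ m) x ∧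
    (e ^ m) (f (e x)) = f ((e ^ (m + 1)) x) + ((m * (m + 1) : ℕ) : ℚ) • (e ^ m) x := by
  have h1' : ∀ y, e (f y) = f (e y) + h y := by
    intro y
    rw [← h1]
    simp
  have h2' : ∀ y, h (e y) = e (h y) + (2 : ℚ) • e y := by
    intro y
    have := congrArg (fun g : Module.End ℚ M => g y) h2
    simp only [LinearMap.sub_apply, Module.End.mul_apply, LinearMap.smul_apply] at this
    rw [← this]
    abel
  have hw : ∀ m : ℕ, h ((e ^ m) x) = (2 * m : ℚ) • (e ^ m) x := by
    intro m
    induction m with
    | zero => simp [hx]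
    | succ m ih =>
      rw [pow_succ', Module.End.mul_apply, h2', ih, map_smul, ← add_smul]
      congr 1
      push_cast
      ring
  refine ⟨hw m, ?_⟩
  induction m with
  | zero => simp
  | succ m ih =>
    rw [pow_succ', Module.End.mul_apply, ih, map_add, map_smul, h1', hw,
      pow_succ' e (m + 1), Module.End.mul_apply, pow_succ' e m, Module.End.mul_apply]
    rw [add_assoc, ← add_smul]
    congr 2
    push_cast
    ring

end

theorem pf_SL2 : T_SL2 := by
  intro M _ _ e f h h1 h2 h3 S hSe hSf n hne hnf x hx hhx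
  have h1' : ∀ y, e (f y) = f (e y) + h y := by
    intro y
    rw [← h1]
    simp
  have h2' : ∀ y, h (e y) = e (h y) + (2 : ℚ) • e y := by
    intro y
    have := congrArg (fun g : Module.End ℚ M => g y) h2
    simp only [LinearMap.sub_apply, Module.End.mul_apply, LinearMap.smul_apply] at this
    rw [← this]
    abel
  have h3' : ∀ y, h (f y) = f (h y) - (2 : ℚ) • f y := by
    intro y
    have := congrArg (fun g : Module.End ℚ M => g y) h3
    simp only [LinearMap.sub_apply, Module.End.mul_apply, LinearMap.smul_apply,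
      LinearMap.neg_apply] at this
    rw [sub_eq_iff_eq_add.1 this]
    abel
  have hfe : ∀ y, h y = 0 → h (f (e y)) = 0 := by
    intro y hy
    rw [h3', h2', hy, map_zero, zero_add, map_smul, sub_self]
  -- the descending induction
  have hdesc : ∀ i : ℕ, i ≤ n → ∃ u ∈ S, (e ^ (n + 1 - i)) (x + f (e u)) = 0 ∧ h u = 0 := by
    intro i
    induction i with
    | zero =>
      intro _
      refine ⟨0, S.zero_mem, ?_, map_zero _⟩
      rw [map_zero, map_zero, add_zero]
      exact hne x hx
    | succ i ih =>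
      intro hi
      obtain ⟨u, hu, hu1, hu2⟩ := ih (by omega)
      obtain ⟨m, hm⟩ : ∃ m, n + 1 - (i + 1) = m + 1 := ⟨n - i - 1, by omega⟩
      have hm' : n + 1 - i = m + 1 + 1 := by omega
      rw [hm'] at hu1
      let y := x + f (e u)
      have hy : h y = 0 := by
        show h (x + f (e u)) = 0
        rw [map_add, hhx, hfe u hu2, add_zero]
      have hyS : y ∈ S := S.add_mem hx (hSf _ (hSe _ hu))
      let c : ℚ := (((m + 1) * (m + 1 + 1) : ℕ) : ℚ)
      have hc : c ≠ 0 := by
        show (((m + 1) * (m + 1 + 1) : ℕ) : ℚ) ≠ 0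
        positivity
      refine ⟨u - c⁻¹ • y, S.sub_mem hu (S.smul_mem _ hyS), ?_, ?_⟩
      · have h4 := (sl2_pow e f h h1 h2 y hy (m + 1)).2
        have h5 : (e ^ (m + 1 + 1)) y = 0 := hu1
        rw [h5, map_zero, zero_add] at h4
        have h6 : x + f (e (u - c⁻¹ • y)) = y - c⁻¹ • f (e y) := by
          show x + f (e (u - c⁻¹ • y)) = x + f (e u) - c⁻¹ • f (e y)
          rw [map_sub, map_sub, map_smul, map_smul]
          abel
        rw [hm, h6, map_sub, map_smul, h4]
        show (e ^ (m + 1)) y - c⁻¹ • c • (e ^ (m + 1)) y = 0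
        rw [smul_smul, inv_mul_cancel₀ hc, one_smul, sub_self]
      · rw [map_sub, map_smul, hu2, hy, smul_zero, sub_zero]
  obtain ⟨u, hu, hu1, hu2⟩ := hdesc n le_rfl
  have hz1 : e (x + f (e u)) = 0 := by
    have h4 : n + 1 - n = 1 := by omega
    rw [h4, pow_one] at hu1
    exact hu1
  refine ⟨u, hu, hz1, ?_⟩
  let z := x + f (e u)
  have hz : h z = 0 := by
    show h (x + f (e u)) = 0
    rw [map_add, hhx, hfe u hu2, add_zero]
  have hzS : z ∈ S := S.add_mem hx (hSf _ (hSe _ hu))
  have hez : e z = 0 := hz1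
  have hhf : ∀ m : ℕ, h ((f ^ m) z) = (-(2 * m) : ℚ) • (f ^ m) z := by
    intro m
    induction m with
    | zero => simp [hz]
    | succ m ih =>
      rw [pow_succ', Module.End.mul_apply, h3', ih, map_smul, ← sub_smul]
      congr 1
      push_cast
      ring
  have hef : ∀ m : ℕ, e ((f ^ (m + 1)) z) = (-((m * (m + 1) : ℕ) : ℚ)) • (f ^ m) z := by
    intro m
    induction m with
    | zero => simp [h1', hez, hz]
    | succ m ih =>
      rw [pow_succ', Module.End.mul_apply, h1', ih, hhf, map_smul, ← Module.End.mul_apply,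
        ← pow_succ', ← add_smul]
      congr 1
      push_cast
      ring
  have hlast : ∀ i : ℕ, i ≤ n → (f ^ (n + 1 - i)) z = 0 := by
    intro i
    induction i with
    | zero => exact fun _ => hnf z hzS
    | succ i ih =>
      intro hi
      obtain ⟨m, hm⟩ : ∃ m, n + 1 - (i + 1) = m + 1 := ⟨n - i - 1, by omega⟩
      have hm' : n + 1 - i = m + 1 + 1 := by omega
      have h4 := ih (by omega)
      rw [hm'] at h4
      have h5 := hef (m + 1)
      rw [h4, map_zero] at h5
      rw [hm]
      refine (smul_eq_zero.1 h5.symm).resolve_left ?_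
      apply neg_ne_zero.2
      positivity
  have h4 := hlast n le_rfl
  have h5 : n + 1 - n = 1 := by omega
  rw [h5, pow_one] at h4
  exact h4

end Pool.Agent.H52.EV
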