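import Pool.Agent.H64.EV.Targets

/-!
# Row TEF: the components of the images of the nilpotent operators
-/

set_option autoImplicit false
set_option linter.unusedSectionVars false

open Matrix Pool.Agent.H64.CC Pool.Agent.H2.NL Pool.Agent.H64.EV

namespace Pool.Agent.H52.EV

variable {K : Type} [Field K] {I : Type} [Fintype I] [DecidableEq I] (F : OForm K I)

theorem tef_gen (T : Matrix (I × Bool) (I × Bool) K) (s : Bool) (κ : I → K)
    (hT : ∀ x b, T (x, s) b = if b = (x, !s) then κ x else 0) (hT' : ∀ x b, T (x, !s) b = 0)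
    (hκ : ∀ x, κ x ≠ 0) (hl : ∀ i x, F.lam i (x, s) = F.lam i (x, !s) * κ x) :
    ∀ (w : List I) (σ : List Bool), σ.length = w.length → ∀ (t : List (I × Bool) → K) (n : ℕ),
      (F.lw n (w.zip σ))⁻¹ * der T t (w.zip σ) = ∑ i ∈ Finset.range w.length,
        if σ.getD i (!s) = s then
          (F.lw n (w.zip (σ.set i (!s))))⁻¹ * t (w.zip (σ.set i (!s))) else 0 := by
  intro w
  induction w with
  | nil =>
    intro σ hσ t n
    simp [der]
  | cons x w ih =>
    intro σ hσ t n
    rcases σ with _ | ⟨s₀, σ⟩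
    · simp at hσ
    have hσ' : σ.length = w.length := by simpa using hσ
    have e1 : (x :: w).zip (s₀ :: σ) = (x, s₀) :: w.zip σ := rfl
    have e2 : der T t ((x, s₀) :: w.zip σ) =
        ∑ b, T (x, s₀) b * t (b :: w.zip σ) + der T (fun l => t ((x, s₀) :: l)) (w.zip σ) := rfl
    have e3 : F.lw n ((x, s₀) :: w.zip σ) = F.lam n (x, s₀) * F.lw (n + 1) (w.zip σ) := rfl
    have h1 := ih σ hσ' (fun l => t ((x, s₀) :: l)) (n + 1)
    rw [e1, e2, e3, List.length_cons, Finset.sum_range_succ', mul_add]
    have e4 : (F.lam n (x, s₀) * F.lw (n + 1) (w.zip σ))⁻¹ *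
        der T (fun l => t ((x, s₀) :: l)) (w.zip σ) =
        ∑ i ∈ Finset.range w.length, if (s₀ :: σ).getD (i + 1) (!s) = s then
          (F.lw n ((x :: w).zip ((s₀ :: σ).set (i + 1) (!s))))⁻¹ *
            t ((x :: w).zip ((s₀ :: σ).set (i + 1) (!s))) else 0 := by
      rw [mul_inv, mul_assoc, h1, Finset.mul_sum]
      refine Finset.sum_congr rfl fun i _ => ?_
      have e5 : (s₀ :: σ).getD (i + 1) (!s) = σ.getD i (!s) := by simp
      have e6 : (x :: w).zip ((s₀ :: σ).set (i + 1) (!s)) = (x, s₀) :: w.zip (σ.set i (!s)) := by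
        simp
      have e7 : F.lw n ((x, s₀) :: w.zip (σ.set i (!s))) =
          F.lam n (x, s₀) * F.lw (n + 1) (w.zip (σ.set i (!s))) := rfl
      rw [e5, e6, e7]
      by_cases h : σ.getD i (!s) = s
      · rw [if_pos h, if_pos h, mul_inv, mul_assoc]
      · rw [if_neg h, if_neg h, mul_zero]
    have e8 : (F.lam n (x, s₀) * F.lw (n + 1) (w.zip σ))⁻¹ *
        ∑ b, T (x, s₀) b * t (b :: w.zip σ) =
        if (s₀ :: σ).getD 0 (!s) = s then
          (F.lw n ((x :: w).zip ((s₀ :: σ).set 0 (!s))))⁻¹ *
            t ((x :: w).zip ((s₀ :: σ).set 0 (!s))) else 0 := by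
      have e9 : (s₀ :: σ).getD 0 (!s) = s₀ := by simp
      have e10 : (x :: w).zip ((s₀ :: σ).set 0 (!s)) = (x, !s) :: w.zip σ := by simp
      have e11 : F.lw n ((x, !s) :: w.zip σ) = F.lam n (x, !s) * F.lw (n + 1) (w.zip σ) := rfl
      rw [e9, e10, e11]
      by_cases h : s₀ = s
      · subst h
        rw [if_pos rfl, Finset.sum_eq_single (x, !s₀)]
        · rw [hT, if_pos rfl, hl, mul_inv, mul_inv, mul_inv]
          have h2 := hκ x
          field_simp
        · intro b _ hb
          rw [hT, if_neg hb, zero_mul]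
        · exact fun h => absurd (Finset.mem_univ _) h
      · have h2 : s₀ = !s := Bool.eq_not_iff.2 h
        rw [if_neg h, h2, Finset.sum_eq_zero fun b _ => by rw [hT', zero_mul], mul_zero]
    rw [e4, e8, add_comm]

theorem lam_ft (i : ℕ) (x : I) : F.lam i (x, false) = F.lam i (x, true) * F.c (F.st x) := by
  unfold OForm.lam
  simp

theorem pf_TEF : T_TEF := by
  intro K _ I _ _ F t σ w hσ
  constructor
  · exact tef_gen F F.EE false (fun x => F.c (F.st x))
      (by
        intro x b
        show (if x = b.1 ∧ false = false ∧ b.2 = true then F.c (F.st x) else 0) = _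
        by_cases h : b = (x, !false)
        · rw [if_pos h, if_pos (by rw [h]; exact ⟨rfl, rfl, rfl⟩)]
        · rw [if_neg h, if_neg]
          rintro ⟨h1, -, h2⟩
          exact h (Prod.ext h1.symm h2))
      (by
        intro x b
        show (if x = b.1 ∧ (!false) = false ∧ b.2 = true then F.c (F.st x) else 0) = 0
        rw [if_neg]
        rintro ⟨-, h, -⟩
        exact absurd h (by decide))
      (fun x => F.c_ne _) (fun i x => lam_ft F i x) w σ hσ t 0
  · exact tef_gen F F.FF true (fun x => (F.c (F.st x))⁻¹)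
      (by
        intro x b
        show (if x = b.1 ∧ true = true ∧ b.2 = false then (F.c (F.st x))⁻¹ else 0) = _
        by_cases h : b = (x, !true)
        · rw [if_pos h, if_pos (by rw [h]; exact ⟨rfl, rfl, rfl⟩)]
        · rw [if_neg h, if_neg]
          rintro ⟨h1, -, h2⟩
          exact h (Prod.ext h1.symm h2))
      (by
        intro x b
        show (if x = b.1 ∧ (!true) = true ∧ b.2 = false then (F.c (F.st x))⁻¹ else 0) = 0
        rw [if_neg]
        rintro ⟨-, h, -⟩
        exact absurd h (by decide))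
      (fun x => inv_ne_zero (F.c_ne _))
      (fun i x => by
        show F.lam i (x, true) = F.lam i (x, false) * (F.c (F.st x))⁻¹
        rw [lam_ft, mul_assoc, mul_inv_cancel₀ (F.c_ne _), mul_one]) w σ hσ t 0

end Pool.Agent.H52.EV
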