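import Pool.Agent.H64.EV.Targets
import Pool.Agent.H64.CC.Loc

/-!
# Row VAO: the vanishing cohomology, even dimension
-/

set_option autoImplicit false

open Matrix Pool.Agent.H64.CC Pool.Agent.H2.NL Pool.Agent.H64.EV

namespace Pool.Agent.H52.EV

section first

variable {K : Type} [Field K] [CharZero K] {W : Theory K} {V : W.Var 0}
  {L : Matrix (Fin (W.rk V)) (Fin (W.rk V)) K} {r m : ℕ} {T : W.Var m}
  (S : W.Inter V L r T)

private theorem hdu (w : Fin (W.rk V) → K) :
    S.down *ᵥ (S.up *ᵥ w) = ((S.N : K)) • (L ^ r *ᵥ w) := by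
  rw [Matrix.mulVec_mulVec, S.down_up, Matrix.smul_mulVec]

private theorem down_pj (i : ℕ) (x : Fin (W.rk T) → K) :
    S.down *ᵥ (W.pj T i *ᵥ x) = W.pj V (i + 2 * r) *ᵥ (S.down *ᵥ x) := by
  rw [Matrix.mulVec_mulVec, Matrix.mulVec_mulVec]
  congr 1
  ext b a
  unfold Theory.pj
  rw [Matrix.mul_diagonal, Matrix.diagonal_mul]
  by_cases h0 : S.down b a = 0
  · rw [h0, zero_mul, mul_zero]
  · have h1 := S.down_deg b a h0
    by_cases h2 : W.deg T a = i
    · have h3 : W.deg V b = i + 2 * r := by omega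
      rw [if_pos h2, if_pos h3, mul_one, one_mul]
    · have h3 : ¬ W.deg V b = i + 2 * r := by omega
      rw [if_neg h2, if_neg h3, mul_zero, zero_mul]

private theorem step1 (hL : L ∈ W.Lef V) (x : Fin (W.rk T) → K) (hx : S.down *ᵥ x = 0) :
    W.InH T (W.dim T) x := by
  intro a ha
  by_contra hne
  have hN : ((S.N : K)) ≠ 0 := Nat.cast_ne_zero.2 S.N_pos.ne'
  have hdim := S.dim_eq
  have h1 : W.InH T (W.deg T a) (W.pj T (W.deg T a) *ᵥ x) := pj_inH W T _ x
  have h2 : S.down *ᵥ (W.pj T (W.deg T a) *ᵥ x) = 0 := by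
    rw [down_pj, hx, Matrix.mulVec_zero]
  have h3 : W.pj T (W.deg T a) *ᵥ x = 0 := by
    rcases lt_or_gt_of_ne hne with hlt | hgt
    · obtain ⟨u, hu, hu2⟩ := S.surj _ hlt _ h1
      rw [← hu2, hdu] at h2
      have h4 : L ^ r *ᵥ u = 0 := (smul_eq_zero.1 h2).resolve_left hN
      have h5 := inj_pow V hL (j := W.deg T a) (k := r) (by omega) hu h4
      rw [← hu2, h5, Matrix.mulVec_zero]
    · exact S.inj_down _ hgt _ h1 h2
  have h4 : (W.pj T (W.deg T a) *ᵥ x) a = x a := by
    unfold Theory.pj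
    rw [Matrix.mulVec_diagonal, if_pos rfl, one_mul]
  rw [h3] at h4
  exact ha h4.symm

/-- the vanishing classes -/
private def Van : Submodule K (Fin (W.rk T) → K) where
  carrier := {u | W.InH T (W.dim T) u ∧ S.down *ᵥ u = 0}
  add_mem' := by
    rintro u v ⟨hu, hu2⟩ ⟨hv, hv2⟩
    refine ⟨fun a ha => ?_, ?_⟩
    · by_cases h : u a = 0
      · refine hv a fun h' => ha ?_
        rw [Pi.add_apply, h, h', add_zero]
      · exact hu a h
    · rw [Matrix.mulVec_add, hu2, hv2, add_zero]
  zero_mem' := ⟨fun a ha => absurd rfl ha, Matrix.mulVec_zero _⟩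
  smul_mem' := by
    rintro c u ⟨hu, hu2⟩
    refine ⟨fun a ha => hu a fun h' => ha ?_, ?_⟩
    · rw [Pi.smul_apply, h', smul_zero]
    · rw [Matrix.mulVec_smul, hu2, smul_zero]

private theorem mem_Van (u : Fin (W.rk T) → K) :
    u ∈ Van S ↔ W.InH T (W.dim T) u ∧ S.down *ᵥ u = 0 := Iff.rfl

private theorem sub_inH {n : ℕ} (X : W.Var n) {i : ℕ} {u v : Fin (W.rk X) → K}
    (hu : W.InH X i u) (hv : W.InH X i v) : W.InH X i (u - v) := by
  intro a ha
  by_cases h : u a = 0
  · refine hv a fun h' => ha ?_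
    rw [Pi.sub_apply, h, h', sub_zero]
  · exact hu a h

private theorem hom_mem (hL : L ∈ W.Lef V) {i : ℕ} (x : Fin (W.rk T) → K) (hx : W.InH T i x) :
    x ∈ Van S ⊔ LinearMap.range (Matrix.mulVecLin S.up) := by
  have hN : ((S.N : K)) ≠ 0 := Nat.cast_ne_zero.2 S.N_pos.ne'
  have hdim := S.dim_eq
  rcases lt_or_ge i (W.dim T) with hlt | hge
  · obtain ⟨u, -, hu2⟩ := S.surj i hlt x hx
    refine Submodule.mem_sup_right ⟨u, ?_⟩
    rw [Matrix.mulVecLin_apply]
    exact hu2
  · have h1 : W.InH V (i + 2 * r) (S.down *ᵥ x) :=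
      inH_mulVec W T V S.down_deg (by push_cast; ring) hx
    obtain ⟨y, hy, hy2⟩ := surj_pow V hL (j := i) (k := r) (by omega) h1
    have h2 : S.down *ᵥ (x - S.up *ᵥ (((S.N : K))⁻¹ • y)) = 0 := by
      rw [Matrix.mulVec_sub, hdu, Matrix.mulVec_smul, smul_smul, mul_inv_cancel₀ hN, one_smul, hy2,
        sub_self]
    have h3 : W.InH T i (S.up *ᵥ (((S.N : K))⁻¹ • y)) := by
      refine inH_mulVec W V T S.up_deg (i := i) (j := i) (by simp) ?_
      intro a ha
      refine hy a fun h' => ha ?_
      rw [Pi.smul_apply, h', smul_zero]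
    have h4 := sub_inH T hx h3
    have h5 : x = (x - S.up *ᵥ (((S.N : K))⁻¹ • y)) + S.up *ᵥ (((S.N : K))⁻¹ • y) := by
      rw [sub_add_cancel]
    rcases hge.lt_or_eq with hgt | heq
    · have h6 := S.inj_down i hgt _ h4 h2
      refine Submodule.mem_sup_right ⟨((S.N : K))⁻¹ • y, ?_⟩
      rw [Matrix.mulVecLin_apply]
      exact (sub_eq_zero.1 h6).symm
    · rw [h5]
      refine Submodule.add_mem_sup ?_ ⟨((S.N : K))⁻¹ • y, ?_⟩
      · rw [mem_Van]
        refine ⟨?_, h2⟩
        rw [heq]
        exact h4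
      · rw [Matrix.mulVecLin_apply]

private theorem all_mem (hL : L ∈ W.Lef V) :
    Van S ⊔ LinearMap.range (Matrix.mulVecLin S.up) = ⊤ := by
  rw [eq_top_iff]
  rintro x -
  have h1 : x = ∑ a, x a • (Pi.single a (1 : K) : Fin (W.rk T) → K) := by
    funext b
    rw [Finset.sum_apply, Finset.sum_eq_single b]
    · rw [Pi.smul_apply, Pi.single_eq_same, smul_eq_mul, mul_one]
    · intro c _ hc
      rw [Pi.smul_apply, Pi.single_eq_of_ne hc.symm, smul_zero]
    · exact fun h => absurd (Finset.mem_univ b) h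
  rw [h1]
  exact Submodule.sum_mem _ fun a _ => Submodule.smul_mem _ _ (hom_mem S hL _ (inH_single W T a))

private theorem all_ex (hL : L ∈ W.Lef V) (x : Fin (W.rk T) → K) :
    ∃ (v : Fin (W.rk T) → K) (y : Fin (W.rk V) → K), (W.InH T (W.dim T) v ∧ S.down *ᵥ v = 0) ∧
      x = v + S.up *ᵥ y := by
  have h1 : x ∈ Van S ⊔ LinearMap.range (Matrix.mulVecLin S.up) := by
    rw [all_mem S hL]
    trivial
  obtain ⟨v, hv, z, ⟨y, hy⟩, hz⟩ := Submodule.mem_sup.1 h1
  rw [Matrix.mulVecLin_apply] at hy
  refine ⟨v, y, hv, ?_⟩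
  rw [← hz, ← hy]

private theorem rank_le (hL : L ∈ W.Lef V) : W.rk T ≤ Module.finrank K (Van S) + W.rk V := by
  have h1 : Module.finrank K (Fin (W.rk T) → K) = W.rk T := by
    rw [Module.finrank_fin_fun]
  have h2 := Submodule.finrank_add_le_finrank_add_finrank (Van S)
    (LinearMap.range (Matrix.mulVecLin S.up))
  rw [all_mem S hL, finrank_top, h1] at h2
  have h3 := LinearMap.finrank_range_le (Matrix.mulVecLin S.up)
  rw [Module.finrank_fin_fun] at h3
  omega

end first

theorem pf_VAO : T_VAO := by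
  intro K _ _ W hW V L hL r m T S
  have hall : ∀ x : W.H T, ∃ (v : W.H T) (y : W.H V), W.Vanishing S.toGenericIntersection v ∧
      x = v + W.ap S.up y := fun x => all_ex (int W hW S.toIntersection) hL x
  refine ⟨fun x hx => step1 (int W hW S.toIntersection) hL x hx, hall, ?_, ?_⟩
  · intro u hu h0
    have hsym : ∀ v : W.H T, v ⬝ᵥ (S.powers.form *ᵥ u) = u ⬝ᵥ (S.powers.form *ᵥ v) := by
      intro v
      simp only [dotProduct, Matrix.mulVec]
      have h2 : ∀ a b, v a * (S.powers.form a b * u b) = u b * (S.powers.form b a * v a) := by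
        intro a b
        by_cases hub : u b = 0
        · rw [hub]
          ring
        by_cases hf : S.powers.form a b = 0
        · have h3 := S.powers.form_symm b a
          rw [hf, mul_zero] at h3
          rw [hf, h3]
          ring
        · have hdb : W.deg T b = W.dim T := hu.1 b hub
          have hda := S.powers.form_deg a b hf
          have hda' : W.deg T a = W.dim T := by omega
          have hpa : W.par T a = false := by
            unfold Weil.par
            rw [hda']
            exact decide_eq_false (Nat.not_odd_iff_even.2 S.even)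
          have hpb : W.par T b = false := by
            unfold Weil.par
            rw [hdb]
            exact decide_eq_false (Nat.not_odd_iff_even.2 S.even)
          have h3 := S.powers.form_symm a b
          rw [hpa, hpb] at h3
          unfold ks at h3
          rw [if_neg (by simp)] at h3
          rw [h3]
          ring
      simp only [Finset.mul_sum]
      rw [Finset.sum_comm]
      exact Finset.sum_congr rfl fun b _ => Finset.sum_congr rfl fun a _ => h2 a b
    have hz : ∀ x : W.H T, x ⬝ᵥ (S.powers.form *ᵥ u) = 0 := by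
      intro x
      obtain ⟨v, y, hv, rfl⟩ := hall x
      rw [add_dotProduct, hsym v, h0 v hv, zero_add]
      have h2 := S.orth u hu y
      rw [← h2]
      simp only [dotProduct, Matrix.mulVec, Finset.mul_sum, mul_assoc]
    have h2 : S.powers.form *ᵥ u = 0 := by
      funext a
      have h3 := hz (Pi.single a 1)
      rw [single_dotProduct, one_mul] at h3
      exact h3
    obtain ⟨f, hf⟩ := S.powers.form_unit
    have h3 : (↑f⁻¹ : Matrix _ _ K) *ᵥ (S.powers.form *ᵥ u) = u := by
      rw [Matrix.mulVec_mulVec, ← hf, Units.inv_mul, Matrix.one_mulVec]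
    rw [h2, Matrix.mulVec_zero] at h3
    exact h3.symm
  · intro U hU
    have h1 : U = Van (int W hW S.toIntersection) := by
      ext u
      rw [hU u]
      exact Iff.rfl
    rw [h1]
    exact rank_le (int W hW S.toIntersection) hL

end Pool.Agent.H52.EV
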